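import Pool.Agent.Helper6.EA.Defs
import Pool.Agent.Helper14.EK.K6

/-!
# The doubling argument for the automorphisms of a structure; fixing a set with bounded orbits
-/

set_option autoImplicit false
set_option linter.unusedSectionVars false

namespace Pool.Agent.Helper6.EA

open FirstOrder Pool.Agent.Helper20.Spectra Pool.Agent.Helper31.QD Pool.Agent.Helper38.MC
  Pool.Agent.Helper58.QD Pool.Agent.Helper40.MC Pool.Agent.Helper6.MC
open Pool.Agent.Helper12.EK (Gr Ball Cmp)

variable {S : Type} {ar : S → ℕ} {V : Type} [Fintype V]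

lemma oA_of_mem14 {R : Interp S ar V} {A : Finset V} {a : V} (ha : a ∈ A) : (oA R A a).card ≤ 1 := by
  rw [Finset.card_le_one]
  have h : ∀ z ∈ oA R A a, z = a := by
    intro z hz
    obtain ⟨g, hg, rfl⟩ := mem_orb'.1 hz
    exact (mem_GS.1 hg).2 a ha
  intro z hz z' hz'
  rw [h z hz, h z' hz']

lemma oA_mono14 {R : Interp S ar V} {A A' : Finset V} (hA : A ⊆ A') (x : V) : oA R A' x ⊆ oA R A x := by
  intro y hy
  obtain ⟨g, hg, rfl⟩ := mem_orb'.1 hy
  exact mem_orb'.2 ⟨g, mem_GS.2 ⟨(mem_GS.1 hg).1, fun a ha => (mem_GS.1 hg).2 a (hA ha)⟩, rfl⟩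

lemma GA_mono14 {R : Interp S ar V} {A A' : Finset V} (hA : A ⊆ A') {g : Equiv.Perm V} (hg : g ∈ GA R A') :
    g ∈ GA R A := mem_GS.2 ⟨(mem_GS.1 hg).1, fun a ha => (mem_GS.1 hg).2 a (hA ha)⟩

lemma nearA14 [DecidableEq V] {R : Interp S ar V} {E : V → V → Prop} {A : Finset V} {g : Equiv.Perm V}
    (hg : g ∈ GA R A) (hE : ∀ x z, E x z → E (g x) (g z)) {x : V} {m : ℕ}
    (h : Pool.Agent.Helper12.EK.Near14 E A x m) : Pool.Agent.Helper12.EK.Near14 E A (g x) m := by
  obtain ⟨a, ha, hr, hm⟩ := h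
  obtain ⟨h1, h2⟩ := Pool.Agent.Helper12.EK.map14 hE hr
  rw [(mem_GS.1 hg).2 a ha] at h1 h2
  exact ⟨a, ha, h1, h2.trans hm⟩

open Classical in
lemma oA_le14 [DecidableEq V] (R : Interp S ar V) {A A₂ : Finset V} (hA : A ⊆ A₂) (E : V → V → Prop)
    (hsymm : ∀ x y, E x y → E y x) {d M₀ : ℕ}
    (hd : ∀ x, (Finset.univ.filter (fun z => E x z)).card ≤ d)
    (hinv : ∀ g ∈ GA R A, ∀ x z, E x z → E (g x) (g z))
    (hball : ∀ z ρ, (∀ y ∈ Ball E z ρ, y ∉ A₂) → (Ball E z ρ).card ≤ M₀) :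
    ∀ m : ℕ, 1 ≤ m → ∀ x : V, Pool.Agent.Helper12.EK.Near14 E A₂ x m →
      ¬ Pool.Agent.Helper12.EK.Near14 E A₂ x (m - 1) →
      (oA R A₂ x).card ≤ ((M₀ + 1) * (d + 1) ^ 2) ^ (Nat.log 2 m + 1) := by
  intro m
  induction m using Nat.strong_induction_on with
  | _ m IH =>
    intro hm x hx hx'
    obtain ⟨a, ha, hr, hle⟩ := hx
    have hdist : (Gr E).dist x a = m := by
      by_contra h
      exact hx' ⟨a, ha, hr, by omega⟩
    obtain ⟨y, h1, h2, h3, h4⟩ := Pool.Agent.Helper12.EK.geo14 hr (k := m - m / 2) (by omega)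
    have h4' : (Gr E).dist y a = m / 2 := by omega
    -- the orbit of `x` is covered by the balls at the points of the orbit of `y`
    have hcov : oA R A₂ x ⊆ (oA R A₂ y).biUnion (fun y' => Ball E y' (m - m / 2)) := by
      intro x' hx1
      obtain ⟨g, hg, rfl⟩ := mem_orb'.1 hx1
      rw [Finset.mem_biUnion]
      refine ⟨g y, mem_orb'.2 ⟨g, hg, rfl⟩, Pool.Agent.Helper12.EK.mem_Ball.2 ?_⟩
      obtain ⟨h5, h6⟩ := Pool.Agent.Helper12.EK.map14 (hinv g (GA_mono14 hA hg)) h1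
      refine ⟨h5.symm, ?_⟩
      rw [SimpleGraph.dist_comm]
      omega
    rcases Nat.lt_or_ge m 2 with hm2 | hm2
    · have hm1 : m = 1 := by omega
      subst hm1
      have hya : y = a := by
        have h5 : (Gr E).dist y a = 0 := by omega
        exact (h3.dist_eq_zero_iff).1 h5
      subst hya
      have h7 : (Ball E y 0).card ≤ 1 := by
        rw [Finset.card_le_one]
        have h8 : ∀ z ∈ Ball E y 0, y = z := by
          intro z hz
          obtain ⟨hz1, hz2⟩ := Pool.Agent.Helper12.EK.mem_Ball.1 hz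
          exact (hz1.dist_eq_zero_iff).1 (by omega)
        intro z hz z' hz'
        rw [← h8 z hz, ← h8 z' hz']
      have hB : ∀ y' ∈ oA R A₂ y, (Ball E y' (1 - 1 / 2)).card ≤ 1 * (d + 1) := by
        intro y' hy1
        obtain ⟨g, hg, rfl⟩ := mem_orb'.1 hy1
        rw [(mem_GS.1 hg).2 y ha]
        exact (Pool.Agent.Helper12.EK.Ball_succ14 E hsymm hd y 0).trans (Nat.mul_le_mul_right _ h7)
      calc (oA R A₂ x).card ≤ _ := Finset.card_le_card hcov
        _ ≤ (oA R A₂ y).card * (1 * (d + 1)) := Finset.card_biUnion_le_card_mul _ _ _ hB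
        _ ≤ 1 * (1 * (d + 1)) := Nat.mul_le_mul_right _ (oA_of_mem14 ha)
        _ ≤ ((M₀ + 1) * (d + 1) ^ 2) ^ (Nat.log 2 1 + 1) := by
            rw [Nat.log_one_right, zero_add, pow_one]
            have : d + 1 ≤ (d + 1) ^ 2 := Nat.le_self_pow (by norm_num) _
            nlinarith [Nat.zero_le (M₀ * (d + 1) ^ 2)]
    · have hlog : Nat.log 2 m = Nat.log 2 (m / 2) + 1 := Nat.log_of_one_lt_of_le (by norm_num) hm2
      -- `y` is at distance exactly `m / 2`
      have hy' : ¬ Pool.Agent.Helper12.EK.Near14 E A₂ y (m / 2 - 1) := by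
        rintro ⟨b, hb, hb1, hb2⟩
        refine hx' ⟨b, hb, h1.trans hb1, ?_⟩
        have := h1.dist_triangle_left b
        omega
      have hIH := IH (m / 2) (by omega) (by omega) y ⟨a, ha, h3, h4'.le⟩ hy'
      have hB : ∀ y' ∈ oA R A₂ y, (Ball E y' (m - m / 2)).card ≤ M₀ * (d + 1) ^ 2 := by
        intro y' hy1
        obtain ⟨g, hg, rfl⟩ := mem_orb'.1 hy1
        have hn : ¬ Pool.Agent.Helper12.EK.Near14 E A₂ (g y) (m / 2 - 1) := by
          intro h
          have h5 := nearA14 (R := R) (GS_inv hg) (hinv _ (GA_mono14 hA (GS_inv hg))) h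
          rw [show g⁻¹ (g y) = y from g.symm_apply_apply y] at h5
          exact hy' h5
        have h5 : (Ball E (g y) (m / 2 - 1)).card ≤ M₀ := by
          apply hball
          intro z hz hz2
          obtain ⟨hz1, hz3⟩ := Pool.Agent.Helper12.EK.mem_Ball.1 hz
          exact hn ⟨z, hz2, hz1, hz3⟩
        have h6 := Pool.Agent.Helper12.EK.Ball_succ14 E hsymm hd (g y) (m / 2 - 1)
        have h7 := Pool.Agent.Helper12.EK.Ball_succ14 E hsymm hd (g y) (m / 2 - 1 + 1)
        have h8 : Ball E (g y) (m - m / 2) ⊆ Ball E (g y) (m / 2 - 1 + 1 + 1) := by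
          intro z hz
          obtain ⟨hz1, hz3⟩ := Pool.Agent.Helper12.EK.mem_Ball.1 hz
          exact Pool.Agent.Helper12.EK.mem_Ball.2 ⟨hz1, by omega⟩
        calc (Ball E (g y) (m - m / 2)).card ≤ _ := Finset.card_le_card h8
          _ ≤ (Ball E (g y) (m / 2 - 1 + 1)).card * (d + 1) := h7
          _ ≤ (Ball E (g y) (m / 2 - 1)).card * (d + 1) * (d + 1) := Nat.mul_le_mul_right _ h6
          _ ≤ M₀ * (d + 1) * (d + 1) := Nat.mul_le_mul_right _ (Nat.mul_le_mul_right _ h5)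
          _ = M₀ * (d + 1) ^ 2 := by ring
      calc (oA R A₂ x).card ≤ _ := Finset.card_le_card hcov
        _ ≤ (oA R A₂ y).card * (M₀ * (d + 1) ^ 2) := Finset.card_biUnion_le_card_mul _ _ _ hB
        _ ≤ ((M₀ + 1) * (d + 1) ^ 2) ^ (Nat.log 2 (m / 2) + 1) * ((M₀ + 1) * (d + 1) ^ 2) := by
            apply Nat.mul_le_mul hIH
            apply Nat.mul_le_mul_right
            omega
        _ = ((M₀ + 1) * (d + 1) ^ 2) ^ (Nat.log 2 m + 1) := by
            rw [hlog, pow_succ _ (Nat.log 2 (m / 2) + 1)]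

open Classical in
/-- EA11: doubling (Helper14/EK/K6.lean with `GA`, `oA` in place of `St`, `Orb`) -/
theorem doublingG [DecidableEq V] (R : Interp S ar V) {A A₂ : Finset V} (hA : A ⊆ A₂) (E : V → V → Prop) (hsymm : ∀ x y, E x y → E y x)
    {d M₀ : ℕ} (hd : ∀ x, (Finset.univ.filter (fun z => E x z)).card ≤ d)
    (hinv : ∀ g ∈ GA R A, ∀ x z, E x z → E (g x) (g z))
    (hball : ∀ z ρ, (∀ y ∈ Ball E z ρ, y ∉ A₂) → (Ball E z ρ).card ≤ M₀) {x : V} (hx : ∃ a ∈ A₂, a ∈ Cmp E x) :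
    (oA R A₂ x).card ≤ ((M₀ + 1) * (d + 1) ^ 2) ^ (Nat.log 2 M₀ + 1) := by
  have hpos : 1 ≤ (M₀ + 1) * (d + 1) ^ 2 := Nat.succ_le_of_lt (by positivity)
  have hex : ∃ m, Pool.Agent.Helper12.EK.Near14 E A₂ x m := by
    obtain ⟨a, ha, h⟩ := hx
    exact ⟨_, a, ha, Pool.Agent.Helper12.EK.mem_Cmp.1 h, le_refl _⟩
  have hm := Nat.find_spec hex
  set m := Nat.find hex with hmdef
  rcases Nat.eq_zero_or_pos m with h0 | h0
  · rw [h0] at hm
    obtain ⟨a, ha, hr, hle⟩ := hm
    have hxa : x = a := (hr.dist_eq_zero_iff).1 (by omega)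
    subst hxa
    exact (oA_of_mem14 ha).trans (Nat.one_le_pow _ _ hpos)
  · have hm' : ¬ Pool.Agent.Helper12.EK.Near14 E A₂ x (m - 1) := Nat.find_min hex (by omega)
    have h1 := oA_le14 R hA E hsymm hd hinv hball m h0 x hm hm'
    refine h1.trans (Nat.pow_le_pow_right hpos ?_)
    have h2 : m ≤ M₀ := by
      obtain ⟨a, ha, hr, hle⟩ := hm
      have h3 : (Ball E x (m - 1)).card ≤ M₀ := by
        apply hball
        intro z hz hz2
        obtain ⟨hz1, hz3⟩ := Pool.Agent.Helper12.EK.mem_Ball.1 hz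
        exact hm' ⟨z, hz2, hz1, hz3⟩
      have hd1 : (Gr E).dist x a = m := by
        by_contra h
        exact hm' ⟨a, ha, hr, by omega⟩
      have h4 : Finset.range m ⊆ (Ball E x (m - 1)).image (fun z => (Gr E).dist x z) := by
        intro k hk
        rw [Finset.mem_range] at hk
        obtain ⟨y, hy1, hy2, _, _⟩ := Pool.Agent.Helper12.EK.geo14 hr (k := k) (by omega)
        rw [Finset.mem_image]
        exact ⟨y, Pool.Agent.Helper12.EK.mem_Ball.2 ⟨hy1, by omega⟩, hy2⟩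
      have h5 := (Finset.card_le_card h4).trans Finset.card_image_le
      rw [Finset.card_range] at h5
      omega
    have := Nat.log_mono_right (b := 2) h2
    omega

/-! ### Fixing a set with bounded orbits -/

open Classical in
lemma card_GA_insert14 (R : Interp S ar V) (A : Finset V) (b : V) :
    (GA R A).card ≤ (oA R A b).card * (GA R (insert b A)).card := by
  choose! h hh using fun (y : V) (hy : y ∈ oA R A b) => mem_orb'.1 hy
  have key : ∀ g ∈ GA R A, g b ∈ oA R A b := fun g hg => mem_orb'.2 ⟨g, hg, rfl⟩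
  rw [← Finset.card_product]
  apply Finset.card_le_card_of_injOn (fun g => (g b, (h (g b))⁻¹ * g))
  · intro g hg
    have hg : g ∈ GA R A := hg
    obtain ⟨h1, h2⟩ := hh _ (key g hg)
    have h3 : (h (g b))⁻¹ * g ∈ GA R A := GS_mul (GS_inv h1) hg
    simp only [Finset.coe_product, Set.mem_prod, Finset.mem_coe]
    refine ⟨key g hg, mem_GS.2 ⟨(mem_GS.1 h3).1, fun a ha => ?_⟩⟩
    rcases Finset.mem_insert.1 ha with rfl | ha
    · rw [Equiv.Perm.mul_apply, Equiv.Perm.inv_eq_iff_eq, h2]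
    · exact (mem_GS.1 h3).2 a ha
  · intro g _ g' _ he
    simp only [Prod.mk.injEq] at he
    obtain ⟨e1, e2⟩ := he
    rw [e1] at e2
    exact mul_left_cancel e2

open Classical in
/-- EA14: fixing a set with bounded orbits (Helper14/EK/K10.lean) -/
theorem card_GA_le (R : Interp S ar V) {A B : Finset V} {s : ℕ} (hs : ∀ x, (oA R A x).card ≤ s) :
    (GA R A).card ≤ s ^ B.card * (GA R (A ∪ B)).card := by
  induction B using Finset.induction_on with
  | empty => rw [Finset.card_empty, pow_zero, one_mul, Finset.union_empty]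
  | insert b B hb ih =>
    refine ih.trans ?_
    rw [Finset.card_insert_of_notMem hb, pow_succ, mul_assoc]
    refine Nat.mul_le_mul_left _ ((card_GA_insert14 R (A ∪ B) b).trans ?_)
    rw [Finset.union_insert]
    exact Nat.mul_le_mul_right _ ((Finset.card_le_card (oA_mono14 Finset.subset_union_left b)).trans (hs b))

end Pool.Agent.Helper6.EA
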