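import Pool.Agent.Helper40.EA.Bd
import Pool.Agent.Helper96.EK.Num

/-!
# The numbers for monadic second-order logic
-/

set_option autoImplicit false

namespace Pool.Agent.Helper6.EA

open Pool.Agent.Helper12.EK (num_aux3 num_aux4)

lemma bd_dE14 (r e m : ℕ) : Bd40 fun j => dE r (2 ^ (e * j)) (2 ^ j) m := by
  induction m with
  | zero => exact bd_const 1
  | succ m ih => exact ih.add (bd_cD r (bd_two_pow e) (bd_cB r ih) bd_q)

lemma bd_tE14 (r e m : ℕ) : Bd40 fun j => tE r (2 ^ (e * j)) (2 ^ j) m := by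
  induction m with
  | zero => exact bd_const 0
  | succ m ih =>
    exact (ih.add (bd_cT r (bd_two_pow e) (bd_cB r (bd_dE14 r e m)) bd_q)).add
      ((bd_const (4 * (r + 1) ^ 2)).mul (bd_dE14 r e m))

lemma num14 {j : ℕ} (hj : 4 ≤ j) : j * (j + 2) ≤ 2 * 2 ^ j := by
  induction j, hj using Nat.le_induction with
  | base => norm_num
  | succ j hj ih =>
    rw [pow_succ 2 j]
    nlinarith

/-- ME2: the numbers: `q = 2 ^ j`, `l = 2 ^ ((r + 2) j)`, `M₀ = (j + 1) 2 ^ j`, `s' = 2 ^ (C (j + 1) 2 ^ j)`,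
`s = 2 ^ (C (j + 2) 2 ^ (j + 1))`, `D = 2 ^ (a M₀ + b)` -/
theorem numM (r a b : ℕ) : ∃ C : ℕ, 1 ≤ C ∧ ∃ j₀, 1 ≤ j₀ ∧ ∀ j, j₀ ≤ j →
    2 ^ (C * (j + 2) * 2 ^ (j + 1)) * (cB r (dE r (2 ^ ((r + 2) * j)) (2 ^ j) r)) ^ 2 *
      (r * 2 ^ ((r + 2) * j) + 1) ^ r * 2 ^ j * ((2 ^ j) ^ r - 1) ^ 2 ^ ((r + 2) * j) ≤
        ((2 ^ j) ^ r) ^ 2 ^ ((r + 2) * j) ∧
    (2 ^ j - 1) ^ ((j + 1) * 2 ^ j + 1) * 2 ^ j ≤ (2 ^ j) ^ ((j + 1) * 2 ^ j + 1) ∧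
    (((j + 1) * 2 ^ j + 1) * (dE r (2 ^ ((r + 2) * j)) (2 ^ j) r + 1) ^ 2) ^
      (Nat.log 2 ((j + 1) * 2 ^ j) + 1) ≤ 2 ^ (C * (j + 1) * 2 ^ j) ∧
    (j + 1) * 2 ^ j * (2 ^ (a * ((j + 1) * 2 ^ j) + b) + tE r (2 ^ ((r + 2) * j)) (2 ^ j) r + 3 * r + 3) ≤
      2 ^ (C * (j + 1) * 2 ^ j) := by
  obtain ⟨c1, h1⟩ := bd_dE14 r (r + 2) r
  obtain ⟨c2, h2⟩ := bd_tE14 r (r + 2) r
  obtain ⟨c3, h3⟩ := bd_cB r (bd_dE14 r (r + 2) r)
  obtain ⟨c4, h4⟩ := (((bd_const r).mul (bd_two_pow (r + 2))).add (bd_const 1)).pow r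
  obtain ⟨C, hC⟩ : ∃ C, C = a + b + c2 + 3 * r + 6 * c1 + 25 := ⟨_, rfl⟩
  obtain ⟨W, hW⟩ : ∃ W, W = C + 2 * c3 + c4 + 1 := ⟨_, rfl⟩
  refine ⟨C, by omega, 4 * W + 4, by omega, fun j hj => ?_⟩
  have hj1 : 1 ≤ j := by omega
  have hq : 1 ≤ 2 ^ j := Nat.one_le_two_pow
  obtain ⟨m, hm⟩ : ∃ m, m = (j + 1) * 2 ^ j := ⟨_, rfl⟩
  have hjm : j ≤ m := by
    rw [hm]
    nlinarith
  have hm1 : 1 ≤ m := by omega
  have hm2 : 2 ≤ m := by
    rw [hm]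
    nlinarith
  have hj2 : j < 2 ^ j := Nat.lt_two_pow_self
  have hjj : j * j ≤ m := by
    rw [hm]
    nlinarith
  have hm4 : m ≤ 2 ^ (2 * j) := by
    rw [hm, two_mul, pow_add]
    exact Nat.mul_le_mul_right _ (by omega)
  have e1 : C * (j + 1) * 2 ^ j = C * m := by rw [hm]; ring
  have g1 : dE r (2 ^ ((r + 2) * j)) (2 ^ j) r ≤ 2 ^ (c1 * j) := h1 j hj1
  have g2 : tE r (2 ^ ((r + 2) * j)) (2 ^ j) r ≤ 2 ^ (c2 * j) := h2 j hj1
  have g3 : cB r (dE r (2 ^ ((r + 2) * j)) (2 ^ j) r) ≤ 2 ^ (c3 * j) := h3 j hj1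
  have g4 : (r * 2 ^ ((r + 2) * j) + 1) ^ r ≤ 2 ^ (c4 * j) := h4 j hj1
  rw [e1, ← hm]
  refine ⟨?_, ?_, ?_, ?_⟩
  · have hQ : 1 ≤ (2 ^ j) ^ r := Nat.one_le_pow _ _ (by positivity)
    have el : 2 ^ ((r + 2) * j) = (2 ^ j) ^ r * 2 ^ (2 * j) := by
      rw [← pow_mul, ← pow_add]
      congr 1
      ring
    have k1 := num_aux3 hQ (2 ^ (2 * j))
    rw [← el] at k1
    have k2 : 2 ^ (C * (j + 2) * 2 ^ (j + 1)) * (cB r (dE r (2 ^ ((r + 2) * j)) (2 ^ j) r)) ^ 2 *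
        (r * 2 ^ ((r + 2) * j) + 1) ^ r * 2 ^ j ≤ 2 ^ 2 ^ (2 * j) := by
      calc _ ≤ 2 ^ (C * (j + 2) * 2 ^ (j + 1)) * (2 ^ (c3 * j)) ^ 2 * 2 ^ (c4 * j) * 2 ^ j := by
            gcongr
        _ = 2 ^ (C * (j + 2) * 2 ^ (j + 1) + c3 * j * 2 + c4 * j + j) := by
            rw [← pow_mul, ← pow_add, ← pow_add, ← pow_add]
        _ ≤ 2 ^ 2 ^ (2 * j) := by
            apply Nat.pow_le_pow_right (by norm_num)
            have k3 : j ≤ (j + 2) * 2 ^ (j + 1) := by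
              rw [pow_succ]
              nlinarith
            have k4 : C * (j + 2) * 2 ^ (j + 1) + c3 * j * 2 + c4 * j + j ≤ W * ((j + 2) * 2 ^ (j + 1)) := by
              rw [hW]
              have := Nat.mul_le_mul_left (2 * c3 + c4 + 1) k3
              nlinarith
            have k5 : 4 * W * (j + 2) ≤ 2 * 2 ^ j :=
              (Nat.mul_le_mul_right _ (by omega)).trans (num14 (by omega))
            calc _ ≤ W * ((j + 2) * 2 ^ (j + 1)) := k4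
              _ = 2 * W * (j + 2) * 2 ^ j := by rw [pow_succ]; ring
              _ ≤ 2 ^ j * 2 ^ j := Nat.mul_le_mul_right _ (by nlinarith)
              _ = 2 ^ (2 * j) := by rw [← pow_add, two_mul]
    exact (Nat.mul_le_mul_right _ k2).trans k1
  · have k1 := num_aux4 hq (t := j + 1) (u := j) (by omega)
    rw [show 2 ^ j * (j + 1) = m by rw [hm]; ring] at k1
    rw [mul_comm]
    exact k1
  · have k1 : (m + 1) * (dE r (2 ^ ((r + 2) * j)) (2 ^ j) r + 1) ^ 2 ≤ 2 ^ ((2 * c1 + 5) * j) := by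
      have k2 : m + 1 ≤ 2 ^ (2 * j + 1) := by
        rw [pow_succ]
        have : 1 ≤ 2 ^ (2 * j) := Nat.one_le_two_pow
        omega
      have k3 : dE r (2 ^ ((r + 2) * j)) (2 ^ j) r + 1 ≤ 2 ^ (c1 * j + 1) := by
        rw [pow_succ]
        have : 1 ≤ 2 ^ (c1 * j) := Nat.one_le_two_pow
        omega
      calc _ ≤ 2 ^ (2 * j + 1) * (2 ^ (c1 * j + 1)) ^ 2 :=
            Nat.mul_le_mul k2 (Nat.pow_le_pow_left k3 2)
        _ = 2 ^ (2 * j + 1 + (c1 * j + 1) * 2) := by rw [← pow_mul, ← pow_add]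
        _ ≤ _ := Nat.pow_le_pow_right (by norm_num) (by nlinarith)
    have k4 : Nat.log 2 m ≤ 2 * j := by
      have := Nat.log_mono_right (b := 2) hm4
      rwa [Nat.log_pow (by norm_num)] at this
    calc _ ≤ (2 ^ ((2 * c1 + 5) * j)) ^ (Nat.log 2 m + 1) := Nat.pow_le_pow_left k1 _
      _ ≤ (2 ^ ((2 * c1 + 5) * j)) ^ (3 * j) :=
          Nat.pow_le_pow_right Nat.one_le_two_pow (by omega)
      _ = 2 ^ ((6 * c1 + 15) * (j * j)) := by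
          rw [← pow_mul]
          congr 1
          ring
      _ ≤ 2 ^ (C * m) := Nat.pow_le_pow_right (by norm_num) (Nat.mul_le_mul (by omega) hjj)
  · have k1 : 2 ^ (a * m + b) ≤ 2 ^ ((a + b + c2 + 3 * r + 3) * m) :=
      Nat.pow_le_pow_right (by norm_num) (by nlinarith [Nat.mul_le_mul_left b hm1])
    have k2 : tE r (2 ^ ((r + 2) * j)) (2 ^ j) r ≤ 2 ^ ((a + b + c2 + 3 * r + 3) * m) :=
      g2.trans (Nat.pow_le_pow_right (by norm_num) (Nat.mul_le_mul (by omega) hjm))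
    have k3 : 3 * r + 3 ≤ 2 ^ ((a + b + c2 + 3 * r + 3) * m) := by
      calc 3 * r + 3 ≤ 2 ^ (3 * r + 3) := Nat.lt_two_pow_self.le
        _ ≤ 2 ^ ((a + b + c2 + 3 * r + 3) * m) :=
            Nat.pow_le_pow_right (by norm_num) (by nlinarith)
    have k4 : m ≤ 2 ^ m := Nat.lt_two_pow_self.le
    have k5 : 3 ≤ 2 ^ m := by
      have : 2 ^ 2 ≤ 2 ^ m := Nat.pow_le_pow_right (by norm_num) hm2
      omega
    calc m * (2 ^ (a * m + b) + tE r (2 ^ ((r + 2) * j)) (2 ^ j) r + 3 * r + 3) ≤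
          2 ^ m * (3 * 2 ^ ((a + b + c2 + 3 * r + 3) * m)) := Nat.mul_le_mul k4 (by omega)
      _ ≤ 2 ^ m * (2 ^ m * 2 ^ ((a + b + c2 + 3 * r + 3) * m)) :=
          Nat.mul_le_mul_left _ (Nat.mul_le_mul_right _ k5)
      _ = 2 ^ ((a + b + c2 + 3 * r + 5) * m) := by
          rw [← pow_add, ← pow_add]
          congr 1
          ring
      _ ≤ 2 ^ (C * m) := Nat.pow_le_pow_right (by norm_num) (Nat.mul_le_mul_right _ (by omega))

end Pool.Agent.Helper6.EA
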